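import Pool.Agent.H74.SC.Loc

/-!
GD: degree of a Gauss extension over the generic base field, by helper74.
-/

namespace Pool.Agent.H74.KN

open _root_.SC

theorem gd (hG2 : T_G2) : T_GD := by
  intro k K L J _ _ _ _ _ _ _ _ v S U w hnz hgen hind hw
  obtain ⟨φ, hφ, hφg⟩ := hw.gen
  let _ : Algebra v.Res w.Res := φ.toAlgebra
  let _ : Algebra k w.Res :=
    ((algebraMap (kU k U) w.Res).comp (algebraMap k (kU k U))).toAlgebra
  have hbase : ∀ c : k, algebraMap k w.Res c = w.red (algebraMap k L c) := fun c => by
    change algebraMap (kU k U) w.Res (algebraMap k (kU k U) c) = _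
    rw [← red_base, ← IsScalarTower.algebraMap_apply k (kU k U) L]
  have ht1 : IsScalarTower k v.Res w.Res := by
    refine IsScalarTower.of_algebraMap_eq fun c => ?_
    have h1 := hφ (algebraMap k K c) (by rw [v.ord_base])
    rw [red_base, ← IsScalarTower.algebraMap_apply k K L] at h1
    rw [hbase, ← h1]
    rfl
  have ht2 : IsScalarTower k (kU k U) w.Res := IsScalarTower.of_algebraMap_eq fun c => rfl
  -- the residues of the variables
  let U' : Var S → kU k U := fun x =>
    ⟨U x, IntermediateField.subset_adjoin k _ ⟨x, rfl⟩⟩
  let Ub : Var S → w.Res := fun x => w.red (U x)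
  have hUb : ∀ x, algebraMap (kU k U) w.Res (U' x) = Ub x := fun x => by
    rw [← red_base]
    rfl
  let f : kU k U →ₐ[k] w.Res := IsScalarTower.toAlgHom k (kU k U) w.Res
  have hU'ind : AlgebraicIndependent k U' := by
    refine AlgebraicIndependent.of_comp (kU k U).val ?_
    exact hind
  have hUbind : AlgebraicIndependent k Ub := by
    have h1 := hU'ind.map' (f := f) f.toRingHom.injective
    have h2 : (f ∘ U') = Ub := by
      funext x
      exact hUb x
    rw [h2] at h1
    exact h1
  have h2 := (hG2 k v.Res J w.Res (fun j => v.res (S j)) Ub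
    (fun j => res_nz v (S j) (hnz j)) hφg).1 hUbind
  rw [h2]
  change Module.finrank (kU k U) w.Res = Module.finrank (kU k Ub) w.Res
  -- the image of the base field
  have hmap : kU k Ub = f.fieldRange := by
    have h3 : (IntermediateField.adjoin k (Set.range U')) = ⊤ := by
      have h4 := IntermediateField.adjoin_map k (Set.range U') (kU k U).val
      have h5 : (kU k U).val '' (Set.range U') = Set.range U := by
        rw [← Set.range_comp]
        rfl
      rw [h5] at h4
      refine IntermediateField.map_injective (kU k U).val ?_
      change IntermediateField.map (kU k U).val _ = IntermediateField.map (kU k U).val ⊤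
      rw [h4, ← AlgHom.fieldRange_eq_map, IntermediateField.fieldRange_val]
    have h6 := IntermediateField.adjoin_map k (Set.range U') f
    have h7 : f '' (Set.range U') = Set.range Ub := by
      rw [← Set.range_comp]
      congr 1
      funext x
      exact hUb x
    rw [h7, h3, ← AlgHom.fieldRange_eq_map] at h6
    exact h6.symm
  let e1 : kU k U ≃ₐ[k] f.fieldRange := AlgEquiv.ofInjectiveField f
  let e2 : f.fieldRange ≃ₐ[k] kU k Ub := IntermediateField.equivOfEq hmap.symm
  refine Algebra.finrank_eq_of_equiv_equiv ((e1.trans e2).toRingEquiv) (RingEquiv.refl _) ?_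
  ext c
  rfl

end Pool.Agent.H74.KN
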