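import Pool.Agent.H74.SC.Loc

/-!
GE: a Gauss extension is trivial on the generic base field if the index does not vanish, by
helper74.
-/

namespace Pool.Agent.H74.KN

open _root_.SC

theorem ge (hG4 : T_G4) (hG2 : T_G2) (hG4t : T_G4t) : T_GE := by
  intro k K L J _ _ _ _ _ _ _ _ v S U hnz hgen hidx
  obtain ⟨w₀, hw₀⟩ := hG4 k K L J v S U hnz hgen
  obtain ⟨φ, hφ, hφg⟩ := hw₀.gen
  letI : Algebra v.Res w₀.Res := φ.toAlgebra
  have htower : IsScalarTower k v.Res w₀.Res := by
    refine IsScalarTower.of_algebraMap_eq fun c => ?_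
    have h1 := hφ (algebraMap k K c) (by rw [v.ord_base])
    rw [red_base, ← IsScalarTower.algebraMap_apply k K L, red_base] at h1
    exact h1.symm
  have h2 := (hG2 k v.Res J w₀.Res (fun j => v.res (S j)) (fun x : Var S => w₀.red (U x))
    (fun j => res_nz v (S j) (hnz j)) hφg).2
  have h3 : AlgebraicIndependent k (fun x : Var S => w₀.red (U x)) := by
    by_contra h
    exact hidx (h2 h)
  have h4 := aeval_of_indep w₀ U hw₀.nonneg h3
  have h5 : AlgebraicIndependent k U := by
    rw [algebraicIndependent_iff]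
    intro p hp
    by_contra h
    exact (h4 p h).1 hp
  have h6 : ∀ c : kU k U, w₀.ord (algebraMap (kU k U) L c) = 0 := by
    rintro ⟨c, hc⟩
    change w₀.ord c = 0
    by_cases hc0 : c = 0
    · rw [hc0, w₀.ord_zero]
    obtain ⟨r, s, hrs⟩ := (IntermediateField.mem_adjoin_range_iff k U c).1 hc
    have hr : r ≠ 0 := by
      rintro rfl
      rw [map_zero, zero_div] at hrs
      exact hc0 hrs
    have hs : s ≠ 0 := by
      rintro rfl
      rw [map_zero, div_zero] at hrs
      exact hc0 hrs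
    have h7 := h4 r hr
    have h8 := h4 s hs
    rw [hrs, div_eq_mul_inv, w₀.ord_mul _ _ h7.1 (inv_ne_zero h8.1), w₀.ord_inv, h7.2, h8.2]
    ring
  refine ⟨h5, ⟨{
    ord := w₀.ord
    ord_zero := w₀.ord_zero
    ord_mul := w₀.ord_mul
    ord_add := w₀.ord_add
    ord_base := h6
    ord_surj := w₀.ord_surj }, ?_⟩⟩
  exact hG4t k K k (kU k U) L J v w₀ _ S U rfl hw₀

end Pool.Agent.H74.KN
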