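import Pool.Agent.H93.SC.Targets2

/-!
Local lemmas on discrete valuations for the modules GE and GD, by helper74.
-/

namespace Pool.Agent.H74.KN

open _root_.SC

variable {k K : Type} [Field k] [Field K] [Algebra k K] (v : DV k K)

theorem red_eq {x : K} (h : 0 ≤ v.ord x) : v.red x = IsLocalRing.residue v.vs ⟨x, h⟩ :=
  dif_pos h

theorem coe_algebraMap (c : k) : ((algebraMap k v.vs c : v.vs) : K) = algebraMap k K c := rfl

theorem red_base (c : k) : v.red (algebraMap k K c) = algebraMap k v.Res c := by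
  have h : 0 ≤ v.ord (algebraMap k K c) := by rw [v.ord_base]
  rw [red_eq v h]
  rfl

theorem red_coe (a : v.vs) : v.red (a : K) = IsLocalRing.residue v.vs a := red_eq v a.2

theorem red_ne_zero {x : K} (hx : x ≠ 0) (h : v.ord x = 0) : v.red x ≠ 0 := by
  rw [red_eq v h.ge, Ne, IsLocalRing.residue_eq_zero_iff, IsLocalRing.mem_maximalIdeal,
    mem_nonunits_iff, not_not]
  have h' : 0 ≤ v.ord x⁻¹ := by rw [v.ord_inv, h, neg_zero]
  refine IsUnit.of_mul_eq_one (⟨x⁻¹, h'⟩ : v.vs) ?_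
  apply Subtype.ext
  change x * x⁻¹ = 1
  exact mul_inv_cancel₀ hx

theorem ord_of_residue_ne_zero (a : v.vs) (h : IsLocalRing.residue v.vs a ≠ 0) :
    (a : K) ≠ 0 ∧ v.ord (a : K) = 0 := by
  rw [Ne, IsLocalRing.residue_eq_zero_iff, IsLocalRing.mem_maximalIdeal, mem_nonunits_iff,
    not_not] at h
  obtain ⟨b, hb⟩ := h.exists_right_inv
  have h1 : (a : K) * (b : K) = 1 := congrArg Subtype.val hb
  have ha : (a : K) ≠ 0 := left_ne_zero_of_mul_eq_one h1
  have hb' : (b : K) ≠ 0 := right_ne_zero_of_mul_eq_one h1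
  refine ⟨ha, ?_⟩
  have h2 := v.ord_mul _ _ ha hb'
  rw [h1, v.ord_one] at h2
  have h3 : 0 ≤ v.ord (a : K) := a.2
  have h4 : 0 ≤ v.ord (b : K) := b.2
  omega

/-- the minimal order is attained -/
theorem mo_attained (S : Sys K) (hS : S.Nz) : ∃ i, S.s i ≠ 0 ∧ v.ord (S.s i) = v.mo S := by
  have hne : {z | ∃ i, S.s i ≠ 0 ∧ v.ord (S.s i) = z}.Nonempty := by
    obtain ⟨i, hi⟩ := hS
    exact ⟨_, i, hi, rfl⟩
  have hfin : {z | ∃ i, S.s i ≠ 0 ∧ v.ord (S.s i) = z}.Finite := by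
    refine (Set.finite_range fun i => v.ord (S.s i)).subset ?_
    rintro z ⟨i, _, rfl⟩
    exact ⟨i, rfl⟩
  exact Int.csInf_mem hne hfin.bddBelow

theorem mo_le (S : Sys K) (i : Fin S.r) (hi : S.s i ≠ 0) : v.mo S ≤ v.ord (S.s i) := by
  have hfin : {z | ∃ i, S.s i ≠ 0 ∧ v.ord (S.s i) = z}.Finite := by
    refine (Set.finite_range fun i => v.ord (S.s i)).subset ?_
    rintro z ⟨i, _, rfl⟩
    exact ⟨i, rfl⟩
  exact csInf_le hfin.bddBelow ⟨i, hi, rfl⟩

theorem unif_ne_zero : v.unif ≠ 0 := v.ord_surj.choose_spec.1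

theorem ord_unif : v.ord v.unif = 1 := v.ord_surj.choose_spec.2

theorem ord_pow {x : K} (hx : x ≠ 0) (n : ℕ) : v.ord (x ^ n) = n * v.ord x := by
  induction n with
  | zero => simp [v.ord_one]
  | succ n ih =>
    rw [pow_succ, v.ord_mul _ _ (pow_ne_zero _ hx) hx, ih]
    push_cast
    ring

theorem ord_zpow {x : K} (hx : x ≠ 0) (n : ℤ) : v.ord (x ^ n) = n * v.ord x := by
  obtain ⟨m, rfl | rfl⟩ := n.eq_nat_or_neg
  · rw [zpow_natCast, ord_pow v hx]
  · rw [zpow_neg, zpow_natCast, v.ord_inv, ord_pow v hx]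
    ring

theorem res_nz (S : Sys K) (hS : S.Nz) : (v.res S).Nz := by
  obtain ⟨i, hi, hi'⟩ := mo_attained v S hS
  refine ⟨i, ?_⟩
  change v.red (S.s i * v.unif ^ (-v.mo S)) ≠ 0
  refine red_ne_zero v (mul_ne_zero hi (zpow_ne_zero _ (unif_ne_zero v))) ?_
  rw [v.ord_mul _ _ hi (zpow_ne_zero _ (unif_ne_zero v)), ord_zpow v (unif_ne_zero v), ord_unif,
    hi']
  ring

/-- polynomials in elements with independent residues -/
theorem aeval_of_indep {V : Type} (U : V → K) (hU : ∀ x, 0 ≤ v.ord (U x))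
    (h : AlgebraicIndependent k fun x => v.red (U x)) (q : MvPolynomial V k) (hq : q ≠ 0) :
    MvPolynomial.aeval U q ≠ 0 ∧ v.ord (MvPolynomial.aeval U q) = 0 := by
  let U' : V → v.vs := fun x => ⟨U x, hU x⟩
  let ι : v.vs →ₐ[k] K := { v.vs.subtype with commutes' := fun c => rfl }
  let ρ : v.vs →ₐ[k] v.Res := { IsLocalRing.residue v.vs with commutes' := fun c => rfl }
  have h1 : ((MvPolynomial.aeval U' q : v.vs) : K) = MvPolynomial.aeval U q := by
    have h2 : ι (MvPolynomial.aeval U' q) = MvPolynomial.aeval (fun x => ι (U' x)) q := by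
      rw [← AlgHom.comp_apply, MvPolynomial.comp_aeval]
    exact h2
  have h3 : ρ (MvPolynomial.aeval U' q) = MvPolynomial.aeval (fun x => v.red (U x)) q := by
    rw [← AlgHom.comp_apply, MvPolynomial.comp_aeval]
    congr 2
    funext x
    exact (red_eq v (hU x)).symm
  have h4 : ρ (MvPolynomial.aeval U' q) ≠ 0 := by
    rw [h3]
    intro h0
    exact hq (h.eq_zero_of_aeval_eq_zero _ h0)
  have h5 := ord_of_residue_ne_zero v (MvPolynomial.aeval U' q) h4
  rw [h1] at h5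
  exact h5

end Pool.Agent.H74.KN
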